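import Mathlib

/-!
# Removing unit segments to destroy all grid squares: the exact value

`f(1) = 1`, `f(n) = n^2/2 + 1` for even `n` and `f(n) = (n^2+3)/2` for odd `n ≥ 3`,
with an explicit optimal set for every `n`.
-/

namespace Pool.Agent.Results.MP_5493ad_co.ExactFormula

open Finset

/-- The horizontal unit segment joining `(x, y)` and `(x + 1, y)`. -/
def hseg (x y : ℕ) : Sym2 (ℕ × ℕ) := s((x, y), (x + 1, y))

/-- The vertical unit segment joining `(x, y)` and `(x, y + 1)`. -/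
def vseg (x y : ℕ) : Sym2 (ℕ × ℕ) := s((x, y), (x, y + 1))

/-- The set `E_n` of the `2n(n+1)` unit segments of the `n × n` board. -/
def segs (n : ℕ) : Finset (Sym2 (ℕ × ℕ)) :=
  ((range n ×ˢ range (n + 1)).image fun p => hseg p.1 p.2) ∪
    ((range (n + 1) ×ˢ range n).image fun p => vseg p.1 p.2)

/-- The boundary of the square `[a, a + k] × [b, b + k]`, as a set of unit segments. -/
def squareBoundary (k a b : ℕ) : Finset (Sym2 (ℕ × ℕ)) :=
  (range k).image (fun t => hseg (a + t) b) ∪ (range k).image (fun t => hseg (a + t) (b + k)) ∪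
    ((range k).image (fun t => vseg a (b + t)) ∪ (range k).image (fun t => vseg (a + k) (b + t)))

/-- `R` destroys all squares of the `n × n` board. -/
def Destroys (n : ℕ) (R : Finset (Sym2 (ℕ × ℕ))) : Prop :=
  ∀ k a b : ℕ, 1 ≤ k → a + k ≤ n → b + k ≤ n → ∃ e ∈ R, e ∈ squareBoundary k a b

/-- The formula for `f(n)`. -/
def value (n : ℕ) : ℕ :=
  if n = 1 then 1 else if n % 2 = 0 then n ^ 2 / 2 + 1 else (n ^ 2 + 3) / 2

/-- The condition for the horizontal segment `hseg x y` to be in the optimal set. -/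
def HRem (n x y : ℕ) : Prop :=
  if n % 2 = 0 then
    (x + 1 ≤ y ∧ y + 1 ≤ n ∧ x + y ≤ n + 1 ∧ (x + y) % 2 = 1) ∨
      (n ≤ x + y ∧ y ≤ x ∧ (x + y) % 2 = 0) ∨ (x = 1 ∧ y = n)
  else
    (x ≤ y + 1 ∧ x + y + 2 ≤ n ∧ (x + y) % 2 = 1) ∨
      (n + 1 ≤ x + y ∧ y ≤ x ∧ (x + y) % 2 = 0) ∨
      (x = y ∧ x + y + 1 = n) ∨ (x = y + 1 ∧ x + y = n)

/-- The condition for the vertical segment `vseg x y` to be in the optimal set. -/
def VRem (n x y : ℕ) : Prop :=
  if n % 2 = 0 then
    (y + 2 ≤ x ∧ x + y + 2 ≤ n ∧ (x + y) % 2 = 0) ∨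
      (n + 3 ≤ x + y ∧ x + 1 ≤ y ∧ (x + y) % 2 = 1)
  else
    (y + 4 ≤ x ∧ x + y + 1 ≤ n ∧ (x + y) % 2 = 0) ∨
      (n ≤ x + y ∧ x + 1 ≤ y ∧ (x + y) % 2 = 1)

instance (n x y : ℕ) : Decidable (HRem n x y) := by unfold HRem; infer_instance

instance (n x y : ℕ) : Decidable (VRem n x y) := by unfold VRem; infer_instance

/-- The explicit optimal set of removed segments on the `n × n` board. -/
def optimalSet (n : ℕ) : Finset (Sym2 (ℕ × ℕ)) :=
  (((range n ×ˢ range (n + 1)).filter fun p => HRem n p.1 p.2).image fun p => hseg p.1 p.2) ∪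
    (((range (n + 1) ×ˢ range n).filter fun p => VRem n p.1 p.2).image fun p => vseg p.1 p.2)

/-! ### Basic facts on segments -/

lemma hseg_inj {x y x' y' : ℕ} (h : hseg x y = hseg x' y') : x = x' ∧ y = y' := by
  unfold hseg at h
  rw [Sym2.eq_iff] at h
  simp only [Prod.mk.injEq] at h
  omega

lemma vseg_inj {x y x' y' : ℕ} (h : vseg x y = vseg x' y') : x = x' ∧ y = y' := by
  unfold vseg at h
  rw [Sym2.eq_iff] at h
  simp only [Prod.mk.injEq] at h
  omega

lemma hseg_ne_vseg {x y x' y' : ℕ} (h : hseg x y = vseg x' y') : False := by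
  unfold hseg vseg at h
  rw [Sym2.eq_iff] at h
  simp only [Prod.mk.injEq] at h
  omega

lemma hseg_mem_optimalSet {n x y : ℕ} :
    hseg x y ∈ optimalSet n ↔ x < n ∧ y ≤ n ∧ HRem n x y := by
  unfold optimalSet
  simp only [mem_union, mem_image, mem_filter, mem_product, mem_range, Prod.exists]
  constructor
  · rintro (⟨a, b, ⟨⟨h1, h2⟩, h3⟩, h4⟩ | ⟨a, b, ⟨⟨h1, h2⟩, h3⟩, h4⟩)
    · obtain ⟨rfl, rfl⟩ := hseg_inj h4
      exact ⟨h1, by omega, h3⟩
    · exact (hseg_ne_vseg h4.symm).elim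
  · rintro ⟨h1, h2, h3⟩
    exact Or.inl ⟨x, y, ⟨⟨h1, by omega⟩, h3⟩, rfl⟩

lemma vseg_mem_optimalSet {n x y : ℕ} :
    vseg x y ∈ optimalSet n ↔ x ≤ n ∧ y < n ∧ VRem n x y := by
  unfold optimalSet
  simp only [mem_union, mem_image, mem_filter, mem_product, mem_range, Prod.exists]
  constructor
  · rintro (⟨a, b, ⟨⟨h1, h2⟩, h3⟩, h4⟩ | ⟨a, b, ⟨⟨h1, h2⟩, h3⟩, h4⟩)
    · exact (hseg_ne_vseg h4).elim
    · obtain ⟨rfl, rfl⟩ := vseg_inj h4
      exact ⟨by omega, h2, h3⟩
  · rintro ⟨h1, h2, h3⟩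
    exact Or.inr ⟨x, y, ⟨⟨by omega, h2⟩, h3⟩, rfl⟩

lemma optimalSet_subset (n : ℕ) : optimalSet n ⊆ segs n := by
  unfold optimalSet segs
  apply union_subset_union
  · exact image_subset_image (filter_subset _ _)
  · exact image_subset_image (filter_subset _ _)

lemma mem_squareBoundary {k a b : ℕ} {e : Sym2 (ℕ × ℕ)} :
    e ∈ squareBoundary k a b ↔ ∃ t < k, e = hseg (a + t) b ∨ e = hseg (a + t) (b + k) ∨
      e = vseg a (b + t) ∨ e = vseg (a + k) (b + t) := by
  unfold squareBoundary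
  simp only [mem_union, mem_image, mem_range]
  constructor
  · rintro ((⟨t, ht, rfl⟩ | ⟨t, ht, rfl⟩) | (⟨t, ht, rfl⟩ | ⟨t, ht, rfl⟩))
    · exact ⟨t, ht, by simp⟩
    · exact ⟨t, ht, by simp⟩
    · exact ⟨t, ht, by simp⟩
    · exact ⟨t, ht, by simp⟩
  · rintro ⟨t, ht, rfl | rfl | rfl | rfl⟩
    · exact Or.inl (Or.inl ⟨t, ht, rfl⟩)
    · exact Or.inl (Or.inr ⟨t, ht, rfl⟩)
    · exact Or.inr (Or.inl ⟨t, ht, rfl⟩)
    · exact Or.inr (Or.inr ⟨t, ht, rfl⟩)

/-! ### The construction destroys all squares -/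

lemma even_H_odd {n x y : ℕ} (hn : n % 2 = 0) (hp : (x + y) % 2 = 1) (h : ¬ HRem n x y) :
    y < x + 1 ∨ n < y + 1 ∨ n + 1 < x + y := by
  by_contra hc
  apply h
  unfold HRem
  rw [if_pos hn]
  left
  refine ⟨?_, ?_, ?_, hp⟩ <;> omega

lemma even_H_even {n x y : ℕ} (hn : n % 2 = 0) (hp : (x + y) % 2 = 0) (h : ¬ HRem n x y) :
    x + y < n ∨ x < y := by
  by_contra hc
  apply h
  unfold HRem
  rw [if_pos hn]
  right; left
  refine ⟨?_, ?_, hp⟩ <;> omega

lemma even_H_hole {n x y : ℕ} (hn : n % 2 = 0) (h : ¬ HRem n x y) : x ≠ 1 ∨ y ≠ n := by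
  by_contra hc
  apply h
  unfold HRem
  rw [if_pos hn]
  right; right
  refine ⟨?_, ?_⟩ <;> omega

lemma even_V_even {n x y : ℕ} (hn : n % 2 = 0) (hp : (x + y) % 2 = 0) (h : ¬ VRem n x y) :
    x < y + 2 ∨ n < x + y + 2 := by
  by_contra hc
  apply h
  unfold VRem
  rw [if_pos hn]
  left
  refine ⟨?_, ?_, hp⟩ <;> omega

lemma even_V_odd {n x y : ℕ} (hn : n % 2 = 0) (hp : (x + y) % 2 = 1) (h : ¬ VRem n x y) :
    x + y < n + 3 ∨ y < x + 1 := by
  by_contra hc
  apply h
  unfold VRem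
  rw [if_pos hn]
  right
  refine ⟨?_, ?_, hp⟩ <;> omega

lemma odd_H_odd {n x y : ℕ} (hn : ¬ n % 2 = 0) (hp : (x + y) % 2 = 1) (h : ¬ HRem n x y) :
    y + 1 < x ∨ n < x + y + 2 := by
  by_contra hc
  apply h
  unfold HRem
  rw [if_neg hn]
  left
  refine ⟨?_, ?_, hp⟩ <;> omega

lemma odd_H_even {n x y : ℕ} (hn : ¬ n % 2 = 0) (hp : (x + y) % 2 = 0) (h : ¬ HRem n x y) :
    x + y < n + 1 ∨ x < y := by
  by_contra hc
  apply h
  unfold HRem
  rw [if_neg hn]
  right; left
  refine ⟨?_, ?_, hp⟩ <;> omega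

lemma odd_H_ex1 {n x y : ℕ} (hn : ¬ n % 2 = 0) (h : ¬ HRem n x y) :
    x ≠ y ∨ x + y + 1 ≠ n := by
  by_contra hc
  apply h
  unfold HRem
  rw [if_neg hn]
  right; right; left
  refine ⟨?_, ?_⟩ <;> omega

lemma odd_H_ex2 {n x y : ℕ} (hn : ¬ n % 2 = 0) (h : ¬ HRem n x y) :
    x ≠ y + 1 ∨ x + y ≠ n := by
  by_contra hc
  apply h
  unfold HRem
  rw [if_neg hn]
  right; right; right
  refine ⟨?_, ?_⟩ <;> omega

lemma odd_V_even {n x y : ℕ} (hn : ¬ n % 2 = 0) (hp : (x + y) % 2 = 0) (h : ¬ VRem n x y) :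
    x < y + 4 ∨ n < x + y + 1 := by
  by_contra hc
  apply h
  unfold VRem
  rw [if_neg hn]
  left
  refine ⟨?_, ?_, hp⟩ <;> omega

lemma odd_V_odd {n x y : ℕ} (hn : ¬ n % 2 = 0) (hp : (x + y) % 2 = 1) (h : ¬ VRem n x y) :
    x + y < n ∨ y < x + 1 := by
  by_contra hc
  apply h
  unfold VRem
  rw [if_neg hn]
  right
  refine ⟨?_, ?_, hp⟩ <;> omega

lemma even_BR {n a b k : ℕ} (hn : n % 2 = 0) (_hb : b + k + 2 ≤ n) (_ha : a + k + 2 ≤ n)
    (h1 : ¬ HRem n (a + (k + 1)) b) (h2 : ¬ HRem n (a + k) b)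
    (h3 : ¬ VRem n (a + (k + 2)) b) (h4 : ¬ VRem n (a + (k + 2)) (b + 1)) :
    a + b + k + 2 = n ∨ a + b + k + 3 = n := by
  rcases Nat.mod_two_eq_zero_or_one (a + b + k) with hp | hp
  · have f1 := even_H_odd hn (by omega) h1
    have f2 := even_H_even hn (by omega) h2
    have f3 := even_V_even hn (by omega) h3
    have f4 := even_V_odd hn (by omega) h4
    clear h1 h2 h3 h4
    omega
  · have f1 := even_H_even hn (by omega) h1
    have f2 := even_H_odd hn (by omega) h2
    have f3 := even_V_odd hn (by omega) h3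
    have f4 := even_V_even hn (by omega) h4
    clear h1 h2 h3 h4
    omega

lemma even_TL {n a b k : ℕ} (hn : n % 2 = 0) (_hb : b + k + 2 ≤ n) (_ha : a + k + 2 ≤ n)
    (h1 : ¬ HRem n a (b + (k + 2))) (h2 : ¬ HRem n (a + 1) (b + (k + 2)))
    (h3 : ¬ VRem n a (b + (k + 1))) (h4 : ¬ VRem n a (b + k)) :
    a + b + k = n ∨ a + b + k = n + 1 := by
  have g1 := even_H_hole hn h1
  have g2 := even_H_hole hn h2
  rcases Nat.mod_two_eq_zero_or_one (a + b + k) with hp | hp
  · have f1 := even_H_even hn (by omega) h1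
    have f2 := even_H_odd hn (by omega) h2
    have f3 := even_V_odd hn (by omega) h3
    have f4 := even_V_even hn (by omega) h4
    clear h1 h2 h3 h4
    omega
  · have f1 := even_H_odd hn (by omega) h1
    have f2 := even_H_even hn (by omega) h2
    have f3 := even_V_even hn (by omega) h3
    have f4 := even_V_odd hn (by omega) h4
    clear h1 h2 h3 h4
    omega

lemma odd_BL {n a b k : ℕ} (hn : ¬ n % 2 = 0) (_hb : b + k + 2 ≤ n) (_ha : a + k + 2 ≤ n)
    (h1 : ¬ HRem n a b) (h2 : ¬ HRem n (a + 1) b)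
    (h3 : ¬ VRem n a b) (h4 : ¬ VRem n a (b + 1)) :
    a = b + 2 ∨ a = b + 3 := by
  have g1 := odd_H_ex1 hn h1
  have g2 := odd_H_ex1 hn h2
  have g3 := odd_H_ex2 hn h1
  have g4 := odd_H_ex2 hn h2
  rcases Nat.mod_two_eq_zero_or_one (a + b) with hp | hp
  · have f1 := odd_H_even hn (by omega) h1
    have f2 := odd_H_odd hn (by omega) h2
    have f3 := odd_V_even hn (by omega) h3
    have f4 := odd_V_odd hn (by omega) h4
    clear h1 h2 h3 h4
    omega
  · have f1 := odd_H_odd hn (by omega) h1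
    have f2 := odd_H_even hn (by omega) h2
    have f3 := odd_V_odd hn (by omega) h3
    have f4 := odd_V_even hn (by omega) h4
    clear h1 h2 h3 h4
    omega

lemma odd_TR {n a b k : ℕ} (hn : ¬ n % 2 = 0) (_hb : b + k + 2 ≤ n) (_ha : a + k + 2 ≤ n)
    (h1 : ¬ HRem n (a + (k + 1)) (b + (k + 2))) (h2 : ¬ HRem n (a + k) (b + (k + 2)))
    (h3 : ¬ VRem n (a + (k + 2)) (b + (k + 1))) (h4 : ¬ VRem n (a + (k + 2)) (b + k)) :
    b = a ∨ b = a + 1 := by
  have g1 := odd_H_ex1 hn h1
  have g2 := odd_H_ex1 hn h2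
  have g3 := odd_H_ex2 hn h1
  have g4 := odd_H_ex2 hn h2
  rcases Nat.mod_two_eq_zero_or_one (a + b) with hp | hp
  · have f1 := odd_H_odd hn (by omega) h1
    have f2 := odd_H_even hn (by omega) h2
    have f3 := odd_V_odd hn (by omega) h3
    have f4 := odd_V_even hn (by omega) h4
    clear h1 h2 h3 h4
    omega
  · have f1 := odd_H_even hn (by omega) h1
    have f2 := odd_H_odd hn (by omega) h2
    have f3 := odd_V_even hn (by omega) h3
    have f4 := odd_V_odd hn (by omega) h4
    clear h1 h2 h3 h4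
    omega

lemma unit_square {n a b : ℕ} (ha : a + 1 ≤ n) (hb : b + 1 ≤ n) (h1 : ¬ HRem n a b)
    (h2 : ¬ HRem n a (b + 1)) (h3 : ¬ VRem n a b) (h4 : ¬ VRem n (a + 1) b) : False := by
  by_cases hn : n % 2 = 0
  · have g1 := even_H_hole hn h1
    have g2 := even_H_hole hn h2
    rcases Nat.mod_two_eq_zero_or_one (a + b) with hp | hp
    · have f1 := even_H_even hn (by omega) h1
      have f2 := even_H_odd hn (by omega) h2
      have f3 := even_V_even hn (by omega) h3
      have f4 := even_V_odd hn (by omega) h4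
      clear h1 h2 h3 h4
      omega
    · have f1 := even_H_odd hn (by omega) h1
      have f2 := even_H_even hn (by omega) h2
      have f3 := even_V_odd hn (by omega) h3
      have f4 := even_V_even hn (by omega) h4
      clear h1 h2 h3 h4
      omega
  · have g1 := odd_H_ex1 hn h1
    have g2 := odd_H_ex1 hn h2
    have g3 := odd_H_ex2 hn h1
    have g4 := odd_H_ex2 hn h2
    rcases Nat.mod_two_eq_zero_or_one (a + b) with hp | hp
    · have f1 := odd_H_even hn (by omega) h1
      have f2 := odd_H_odd hn (by omega) h2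
      have f3 := odd_V_even hn (by omega) h3
      have f4 := odd_V_odd hn (by omega) h4
      clear h1 h2 h3 h4
      omega
    · have f1 := odd_H_odd hn (by omega) h1
      have f2 := odd_H_even hn (by omega) h2
      have f3 := odd_V_odd hn (by omega) h3
      have f4 := odd_V_even hn (by omega) h4
      clear h1 h2 h3 h4
      omega

lemma optimalSet_destroys (n : ℕ) : Destroys n (optimalSet n) := by
  intro k a b hk ha hb
  by_contra hcon
  push Not at hcon
  have H1 : ∀ t < k, ¬ HRem n (a + t) b := fun t ht hh =>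
    hcon _ (hseg_mem_optimalSet.2 ⟨by omega, by omega, hh⟩)
      (mem_squareBoundary.2 ⟨t, ht, Or.inl rfl⟩)
  have H2 : ∀ t < k, ¬ HRem n (a + t) (b + k) := fun t ht hh =>
    hcon _ (hseg_mem_optimalSet.2 ⟨by omega, by omega, hh⟩)
      (mem_squareBoundary.2 ⟨t, ht, Or.inr (Or.inl rfl)⟩)
  have H3 : ∀ t < k, ¬ VRem n a (b + t) := fun t ht hh =>
    hcon _ (vseg_mem_optimalSet.2 ⟨by omega, by omega, hh⟩)
      (mem_squareBoundary.2 ⟨t, ht, Or.inr (Or.inr (Or.inl rfl))⟩)
  have H4 : ∀ t < k, ¬ VRem n (a + k) (b + t) := fun t ht hh =>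
    hcon _ (vseg_mem_optimalSet.2 ⟨by omega, by omega, hh⟩)
      (mem_squareBoundary.2 ⟨t, ht, Or.inr (Or.inr (Or.inr rfl))⟩)
  rcases Nat.lt_or_ge k 2 with hk2 | hk2
  · obtain rfl : k = 1 := by omega
    exact unit_square ha hb (H1 0 (by omega)) (H2 0 (by omega)) (H3 0 (by omega))
      (H4 0 (by omega))
  · obtain ⟨j, rfl⟩ : ∃ j, k = j + 2 := ⟨k - 2, by omega⟩
    by_cases hn : n % 2 = 0
    · have e1 := even_BR (n := n) (a := a) (b := b) (k := j) hn (by omega) (by omega)
        (H1 (j + 1) (by omega)) (H1 j (by omega)) (H4 0 (by omega)) (H4 1 (by omega))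
      have e2 := even_TL (n := n) (a := a) (b := b) (k := j) hn (by omega) (by omega)
        (H2 0 (by omega)) (H2 1 (by omega)) (H3 (j + 1) (by omega)) (H3 j (by omega))
      omega
    · have e1 := odd_BL (n := n) (a := a) (b := b) (k := j) hn (by omega) (by omega)
        (H1 0 (by omega)) (H1 1 (by omega)) (H3 0 (by omega)) (H3 1 (by omega))
      have e2 := odd_TR (n := n) (a := a) (b := b) (k := j) hn (by omega) (by omega)
        (H2 (j + 1) (by omega)) (H2 j (by omega)) (H4 (j + 1) (by omega)) (H4 j (by omega))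
      omega

/-! ### Double counting -/

lemma card_eq {n : ℕ} {R : Finset (Sym2 (ℕ × ℕ))} (hR : R ⊆ segs n) :
    R.card = ∑ x ∈ range n, ∑ y ∈ range (n + 1), (if hseg x y ∈ R then 1 else 0) +
      ∑ x ∈ range (n + 1), ∑ y ∈ range n, (if vseg x y ∈ R then 1 else 0) := by
  classical
  have hsplit : R =
      ((range n ×ˢ range (n + 1)).filter fun p => hseg p.1 p.2 ∈ R).image
        (fun p => hseg p.1 p.2) ∪
      ((range (n + 1) ×ˢ range n).filter fun p => vseg p.1 p.2 ∈ R).image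
        (fun p => vseg p.1 p.2) := by
    ext e
    constructor
    · intro he
      have := hR he
      unfold segs at this
      rw [mem_union, mem_image, mem_image] at this
      rw [mem_union, mem_image, mem_image]
      rcases this with ⟨p, hp, rfl⟩ | ⟨p, hp, rfl⟩
      · exact Or.inl ⟨p, mem_filter.2 ⟨hp, he⟩, rfl⟩
      · exact Or.inr ⟨p, mem_filter.2 ⟨hp, he⟩, rfl⟩
    · intro he
      rw [mem_union, mem_image, mem_image] at he
      rcases he with ⟨p, hp, rfl⟩ | ⟨p, hp, rfl⟩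
      · exact (mem_filter.1 hp).2
      · exact (mem_filter.1 hp).2
  have hdisj : Disjoint
      (((range n ×ˢ range (n + 1)).filter fun p => hseg p.1 p.2 ∈ R).image
        (fun p => hseg p.1 p.2))
      (((range (n + 1) ×ˢ range n).filter fun p => vseg p.1 p.2 ∈ R).image
        (fun p => vseg p.1 p.2)) := by
    rw [Finset.disjoint_left]
    intro e he he'
    rw [mem_image] at he he'
    obtain ⟨p, -, rfl⟩ := he
    obtain ⟨q, -, hq⟩ := he'
    exact hseg_ne_vseg hq.symm
  have h1 : (((range n ×ˢ range (n + 1)).filter fun p => hseg p.1 p.2 ∈ R).image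
        (fun p => hseg p.1 p.2)).card =
      ∑ x ∈ range n, ∑ y ∈ range (n + 1), (if hseg x y ∈ R then 1 else 0) := by
    rw [card_image_of_injective, card_filter, sum_product]
    intro p q hpq
    exact Prod.ext (hseg_inj hpq).1 (hseg_inj hpq).2
  have h2 : (((range (n + 1) ×ˢ range n).filter fun p => vseg p.1 p.2 ∈ R).image
        (fun p => vseg p.1 p.2)).card =
      ∑ x ∈ range (n + 1), ∑ y ∈ range n, (if vseg x y ∈ R then 1 else 0) := by
    rw [card_image_of_injective, card_filter, sum_product]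
    intro p q hpq
    exact Prod.ext (vseg_inj hpq).1 (vseg_inj hpq).2
  calc R.card = _ := congrArg Finset.card hsplit
    _ = _ := by rw [card_union_of_disjoint hdisj, h1, h2]

lemma double_count (n : ℕ) (H V : ℕ → ℕ → ℕ) :
    2 * (∑ x ∈ range n, ∑ y ∈ range (n + 1), H x y +
      ∑ x ∈ range (n + 1), ∑ y ∈ range n, V x y) =
    ∑ x ∈ range n, ∑ y ∈ range n, (H x y + H x (y + 1) + V x y + V (x + 1) y) +
      (∑ x ∈ range n, (H x 0 + H x n) + ∑ y ∈ range n, (V 0 y + V n y)) := by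
  have hH : 2 * (∑ x ∈ range n, ∑ y ∈ range (n + 1), H x y) =
      ∑ x ∈ range n, ∑ y ∈ range n, (H x y + H x (y + 1)) +
        ∑ x ∈ range n, (H x 0 + H x n) := by
    rw [mul_sum, ← sum_add_distrib]
    apply sum_congr rfl
    intro x _
    have e1 := sum_range_succ (fun y => H x y) n
    have e2 := sum_range_succ' (fun y => H x y) n
    rw [sum_add_distrib]
    omega
  have hV : 2 * (∑ x ∈ range (n + 1), ∑ y ∈ range n, V x y) =
      ∑ x ∈ range n, ∑ y ∈ range n, (V x y + V (x + 1) y) +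
        ∑ y ∈ range n, (V 0 y + V n y) := by
    rw [sum_comm, sum_comm (s := range n) (t := range n), mul_sum, ← sum_add_distrib]
    apply sum_congr rfl
    intro y _
    have e1 := sum_range_succ (fun x => V x y) n
    have e2 := sum_range_succ' (fun x => V x y) n
    rw [sum_add_distrib]
    omega
  have hs : ∑ x ∈ range n, ∑ y ∈ range n, (H x y + H x (y + 1) + V x y + V (x + 1) y) =
      ∑ x ∈ range n, ∑ y ∈ range n, (H x y + H x (y + 1)) +
        ∑ x ∈ range n, ∑ y ∈ range n, (V x y + V (x + 1) y) := by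
    rw [← sum_add_distrib]
    apply sum_congr rfl
    intro x _
    rw [← sum_add_distrib]
    apply sum_congr rfl
    intro y _
    ring
  rw [hs, mul_add, hH, hV]
  ring

/-! ### The size of the construction -/

lemma sum_special_le (n c d : ℕ) :
    ∑ x ∈ range n, ∑ y ∈ range n, (if x = y + c ∧ x + y + d = n then 1 else 0) ≤ 1 := by
  rw [← sum_product' (s := range n) (t := range n)
    (f := fun x y => if x = y + c ∧ x + y + d = n then 1 else 0), ← card_filter,
    card_le_one]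
  intro p hp q hq
  rw [mem_filter] at hp hq
  ext
  · omega
  · omega

lemma sum_one_le (n : ℕ) (P : ℕ → Prop) [DecidablePred P] (hP : ∀ x y, P x → P y → x = y) :
    ∑ x ∈ range n, (if P x then 1 else 0) ≤ 1 := by
  rw [← card_filter, card_le_one]
  intro p hp q hq
  rw [mem_filter] at hp hq
  exact hP _ _ hp.2 hq.2

lemma four_le (p1 p2 p3 p4 q : Prop) [Decidable p1] [Decidable p2] [Decidable p3]
    [Decidable p4] [Decidable q] (h13 : ¬ (p1 ∧ p3)) (h14 : ¬ (p1 ∧ p4)) (h23 : ¬ (p2 ∧ p3))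
    (h24 : ¬ (p2 ∧ p4)) (h34 : ¬ (p3 ∧ p4)) (h12 : p1 ∧ p2 → q) :
    (if p1 then 1 else 0) + (if p2 then 1 else 0) + (if p3 then 1 else 0) +
      (if p4 then 1 else 0) ≤ 1 + (if q then 1 else 0) := by
  by_cases c1 : p1 <;> by_cases c2 : p2 <;> by_cases c3 : p3 <;> by_cases c4 : p4 <;>
    by_cases c5 : q <;> simp_all

lemma two_le (p1 p2 q : Prop) [Decidable p1] [Decidable p2] [Decidable q]
    (h12 : ¬ (p1 ∧ p2)) (h1 : p1 → q) (h2 : p2 → q) :
    (if p1 then 1 else 0) + (if p2 then 1 else 0) ≤ (if q then 1 else 0) := by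
  by_cases c1 : p1 <;> by_cases c2 : p2 <;> by_cases c5 : q <;> simp_all

lemma HRem_even {n x y : ℕ} (hn : n % 2 = 0) : HRem n x y ↔
    ((x + 1 ≤ y ∧ y + 1 ≤ n ∧ x + y ≤ n + 1 ∧ (x + y) % 2 = 1) ∨
      (n ≤ x + y ∧ y ≤ x ∧ (x + y) % 2 = 0) ∨ (x = 1 ∧ y = n)) := by
  unfold HRem
  rw [if_pos hn]

lemma VRem_even {n x y : ℕ} (hn : n % 2 = 0) : VRem n x y ↔
    ((y + 2 ≤ x ∧ x + y + 2 ≤ n ∧ (x + y) % 2 = 0) ∨
      (n + 3 ≤ x + y ∧ x + 1 ≤ y ∧ (x + y) % 2 = 1)) := by
  unfold VRem
  rw [if_pos hn]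

lemma HRem_odd {n x y : ℕ} (hn : ¬ n % 2 = 0) : HRem n x y ↔
    ((x ≤ y + 1 ∧ x + y + 2 ≤ n ∧ (x + y) % 2 = 1) ∨
      (n + 1 ≤ x + y ∧ y ≤ x ∧ (x + y) % 2 = 0) ∨
      (x = y ∧ x + y + 1 = n) ∨ (x = y + 1 ∧ x + y = n)) := by
  unfold HRem
  rw [if_neg hn]

lemma VRem_odd {n x y : ℕ} (hn : ¬ n % 2 = 0) : VRem n x y ↔
    ((y + 4 ≤ x ∧ x + y + 1 ≤ n ∧ (x + y) % 2 = 0) ∨
      (n ≤ x + y ∧ x + 1 ≤ y ∧ (x + y) % 2 = 1)) := by
  unfold VRem
  rw [if_neg hn]

lemma cell_even {n x y : ℕ} (hn : n % 2 = 0) (_hx : x < n) (hy : y < n) :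
    (if HRem n x y then 1 else 0) + (if HRem n x (y + 1) then 1 else 0) +
      (if VRem n x y then 1 else 0) + (if VRem n (x + 1) y then 1 else 0) ≤
    1 + (if x = y + 0 ∧ x + y + 0 = n then 1 else 0) := by
  apply four_le
  · rw [HRem_even hn, VRem_even hn]
    rintro ⟨h1 | h1 | h1, h2 | h2⟩ <;> omega
  · rw [HRem_even hn, VRem_even hn]
    rintro ⟨h1 | h1 | h1, h2 | h2⟩ <;> omega
  · rw [HRem_even hn, VRem_even hn]
    rintro ⟨h1 | h1 | h1, h2 | h2⟩ <;> omega
  · rw [HRem_even hn, VRem_even hn]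
    rintro ⟨h1 | h1 | h1, h2 | h2⟩ <;> omega
  · rw [VRem_even hn, VRem_even hn]
    rintro ⟨h1 | h1, h2 | h2⟩ <;> omega
  · rw [HRem_even hn, HRem_even hn]
    rintro ⟨h1 | h1 | h1, h2 | h2 | h2⟩ <;> omega

lemma cell_odd {n x y : ℕ} (hn : ¬ n % 2 = 0) (_hx : x < n) (_hy : y < n) :
    (if HRem n x y then 1 else 0) + (if HRem n x (y + 1) then 1 else 0) +
      (if VRem n x y then 1 else 0) + (if VRem n (x + 1) y then 1 else 0) ≤
    1 + (if (x = y + 1 ∧ x + y + 0 = n) ∨ (x = y + 1 ∧ x + y + 2 = n) then 1 else 0) := by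
  apply four_le
  · rw [HRem_odd hn, VRem_odd hn]
    rintro ⟨h1 | h1 | h1 | h1, h2 | h2⟩ <;> omega
  · rw [HRem_odd hn, VRem_odd hn]
    rintro ⟨h1 | h1 | h1 | h1, h2 | h2⟩ <;> omega
  · rw [HRem_odd hn, VRem_odd hn]
    rintro ⟨h1 | h1 | h1 | h1, h2 | h2⟩ <;> omega
  · rw [HRem_odd hn, VRem_odd hn]
    rintro ⟨h1 | h1 | h1 | h1, h2 | h2⟩ <;> omega
  · rw [VRem_odd hn, VRem_odd hn]
    rintro ⟨h1 | h1, h2 | h2⟩ <;> omega
  · rw [HRem_odd hn, HRem_odd hn]
    rintro ⟨h1 | h1 | h1 | h1, h2 | h2 | h2 | h2⟩ <;> omega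

lemma optimalSet_sums (n : ℕ) :
    2 * (optimalSet n).card =
      ∑ x ∈ range n, ∑ y ∈ range n, ((if HRem n x y then 1 else 0) +
        (if HRem n x (y + 1) then 1 else 0) + (if VRem n x y then 1 else 0) +
        (if VRem n (x + 1) y then 1 else 0)) +
      (∑ x ∈ range n, ((if HRem n x 0 then 1 else 0) + (if HRem n x n then 1 else 0)) +
        ∑ y ∈ range n, ((if VRem n 0 y then 1 else 0) + (if VRem n n y then 1 else 0))) := by
  rw [card_eq (optimalSet_subset n)]
  rw [← double_count n (fun x y => if HRem n x y then 1 else 0)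
    (fun x y => if VRem n x y then 1 else 0)]
  congr 2
  · apply sum_congr rfl
    intro x hx
    apply sum_congr rfl
    intro y hy
    rw [mem_range] at hx hy
    have : hseg x y ∈ optimalSet n ↔ HRem n x y := by
      rw [hseg_mem_optimalSet]
      exact ⟨fun h => h.2.2, fun h => ⟨hx, by omega, h⟩⟩
    by_cases c : HRem n x y
    · rw [if_pos c, if_pos (this.2 c)]
    · rw [if_neg c, if_neg (fun h => c (this.1 h))]
  · apply sum_congr rfl
    intro x hx
    apply sum_congr rfl
    intro y hy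
    rw [mem_range] at hx hy
    have : vseg x y ∈ optimalSet n ↔ VRem n x y := by
      rw [vseg_mem_optimalSet]
      exact ⟨fun h => h.2.2, fun h => ⟨by omega, hy, h⟩⟩
    by_cases c : VRem n x y
    · rw [if_pos c, if_pos (this.2 c)]
    · rw [if_neg c, if_neg (fun h => c (this.1 h))]

lemma optimalSet_card_le {n : ℕ} (hn : 1 ≤ n) : (optimalSet n).card ≤ value n := by
  have hd := optimalSet_sums n
  by_cases hpar : n % 2 = 0
  · have hdeg : ∑ x ∈ range n, ∑ y ∈ range n, ((if HRem n x y then 1 else 0) +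
        (if HRem n x (y + 1) then 1 else 0) + (if VRem n x y then 1 else 0) +
        (if VRem n (x + 1) y then 1 else 0)) ≤
        ∑ x ∈ range n, ∑ y ∈ range n, (1 + if (x = y + 0 ∧ x + y + 0 = n) then 1 else 0) :=
      sum_le_sum fun x hx => sum_le_sum fun y hy =>
        cell_even hpar (mem_range.1 hx) (mem_range.1 hy)
    have hdeg2 : ∑ x ∈ range n, ∑ y ∈ range n,
        (1 + if (x = y + 0 ∧ x + y + 0 = n) then 1 else 0) ≤ n ^ 2 + 1 := by
      have := sum_special_le n 0 0
      simp only [sum_add_distrib, sum_const, card_range, smul_eq_mul, mul_one]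
      nlinarith
    have hb1 : ∑ x ∈ range n, ((if HRem n x 0 then 1 else 0) +
        (if HRem n x n then 1 else 0)) ≤ ∑ x ∈ range n, (if x = 1 then 1 else 0) := by
      apply sum_le_sum
      intro x hx
      rw [mem_range] at hx
      apply two_le
      · rw [HRem_even hpar, HRem_even hpar]; omega
      · rw [HRem_even hpar]; omega
      · rw [HRem_even hpar]; omega
    have hb2 : ∑ y ∈ range n, ((if VRem n 0 y then 1 else 0) +
        (if VRem n n y then 1 else 0)) ≤ ∑ y ∈ range n, 0 := by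
      apply sum_le_sum
      intro y hy
      rw [mem_range] at hy
      have h1 : ¬ VRem n 0 y := by rw [VRem_even hpar]; omega
      have h2 : ¬ VRem n n y := by rw [VRem_even hpar]; omega
      rw [if_neg h1, if_neg h2]
    have hb3 := sum_one_le n (fun x => x = 1) (by intro x y hx hy; omega)
    rw [sum_const_zero] at hb2
    unfold value
    rw [if_neg (by omega), if_pos hpar]
    omega
  · have hb1 : ∑ x ∈ range n, ((if HRem n x 0 then 1 else 0) +
        (if HRem n x n then 1 else 0)) ≤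
        ∑ x ∈ range n, (if (x = 0 ∧ n = 1) ∨ (x = 1 ∧ 3 ≤ n) then 1 else 0) := by
      apply sum_le_sum
      intro x hx
      rw [mem_range] at hx
      apply two_le
      · rw [HRem_odd hpar, HRem_odd hpar]; omega
      · rw [HRem_odd hpar]; omega
      · rw [HRem_odd hpar]; omega
    have hb2 : ∑ y ∈ range n, ((if VRem n 0 y then 1 else 0) +
        (if VRem n n y then 1 else 0)) ≤ ∑ y ∈ range n, 0 := by
      apply sum_le_sum
      intro y hy
      rw [mem_range] at hy
      have h1 : ¬ VRem n 0 y := by rw [VRem_odd hpar]; omega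
      have h2 : ¬ VRem n n y := by rw [VRem_odd hpar]; omega
      rw [if_neg h1, if_neg h2]
    have hb3 := sum_one_le n (fun x => (x = 0 ∧ n = 1) ∨ (x = 1 ∧ 3 ≤ n))
      (by intro x y hx hy; omega)
    rw [sum_const_zero] at hb2
    by_cases h1 : n = 1
    · subst h1
      decide
    have hdeg : ∑ x ∈ range n, ∑ y ∈ range n, ((if HRem n x y then 1 else 0) +
        (if HRem n x (y + 1) then 1 else 0) + (if VRem n x y then 1 else 0) +
        (if VRem n (x + 1) y then 1 else 0)) ≤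
        ∑ x ∈ range n, ∑ y ∈ range n, (1 + (if x = y + 1 ∧ x + y + 0 = n then 1 else 0) +
          (if x = y + 1 ∧ x + y + 2 = n then 1 else 0)) := by
      apply sum_le_sum
      intro x hx
      apply sum_le_sum
      intro y hy
      refine (cell_odd hpar (mem_range.1 hx) (mem_range.1 hy)).trans ?_
      split_ifs <;> omega
    have hdeg2 : ∑ x ∈ range n, ∑ y ∈ range n,
        (1 + (if (x = y + 1 ∧ x + y + 0 = n) then 1 else 0) +
          (if (x = y + 1 ∧ x + y + 2 = n) then 1 else 0)) ≤ n ^ 2 + 2 := by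
      have h1 := sum_special_le n 1 0
      have h2 := sum_special_le n 1 2
      simp only [sum_add_distrib, sum_const, card_range, smul_eq_mul, mul_one]
      nlinarith
    unfold value
    rw [if_neg h1, if_neg hpar]
    omega

/-! ### The staircase argument -/

/-- Each unit square is crossed exactly once, each `2 × 2` square is crossed. -/
structure Tiling (n : ℕ) (h v : ℕ → ℕ → Prop) : Prop where
  cover : ∀ x y, x < n → y < n → h x y ∨ h x (y + 1) ∨ v x y ∨ v (x + 1) y
  bt : ∀ x y, x < n → y < n → h x y → h x (y + 1) → False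
  bl : ∀ x y, x < n → y < n → h x y → v x y → False
  br : ∀ x y, x < n → y < n → h x y → v (x + 1) y → False
  tl : ∀ x y, x < n → y < n → h x (y + 1) → v x y → False
  tr : ∀ x y, x < n → y < n → h x (y + 1) → v (x + 1) y → False
  lr : ∀ x y, x < n → y < n → v x y → v (x + 1) y → False
  two : ∀ x y, x + 2 ≤ n → y + 2 ≤ n → h x y ∨ h (x + 1) y ∨ h x (y + 2) ∨ h (x + 1) (y + 2) ∨
    v x y ∨ v x (y + 1) ∨ v (x + 2) y ∨ v (x + 2) (y + 1)

lemma Tiling.transpose {n : ℕ} {h v : ℕ → ℕ → Prop} (T : Tiling n h v) :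
    Tiling n (fun x y => v y x) (fun x y => h y x) where
  cover x y hx hy := by
    have := T.cover y x hy hx
    tauto
  bt x y hx hy h1 h2 := T.lr y x hy hx h1 h2
  bl x y hx hy h1 h2 := T.bl y x hy hx h2 h1
  br x y hx hy h1 h2 := T.tl y x hy hx h2 h1
  tl x y hx hy h1 h2 := T.br y x hy hx h2 h1
  tr x y hx hy h1 h2 := T.tr y x hy hx h2 h1
  lr x y hx hy h1 h2 := T.bt y x hy hx h1 h2
  two x y hx hy := by
    have := T.two y x hy hx
    tauto

lemma Tiling.reflectX {n : ℕ} {h v : ℕ → ℕ → Prop} (T : Tiling n h v) :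
    Tiling n (fun x y => h (n - 1 - x) y) (fun x y => v (n - x) y) where
  cover x y hx hy := by
    have := T.cover (n - 1 - x) y (by omega) hy
    rw [show n - 1 - x + 1 = n - x by omega] at this
    rw [show n - (x + 1) = n - 1 - x by omega]
    tauto
  bt x y hx hy h1 h2 := T.bt (n - 1 - x) y (by omega) hy h1 h2
  bl x y hx hy h1 h2 := by
    have := T.br (n - 1 - x) y (by omega) hy h1
    rw [show n - 1 - x + 1 = n - x by omega] at this
    exact this h2
  br x y hx hy h1 h2 := by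
    rw [show n - (x + 1) = n - 1 - x by omega] at h2
    exact T.bl (n - 1 - x) y (by omega) hy h1 h2
  tl x y hx hy h1 h2 := by
    have := T.tr (n - 1 - x) y (by omega) hy h1
    rw [show n - 1 - x + 1 = n - x by omega] at this
    exact this h2
  tr x y hx hy h1 h2 := by
    rw [show n - (x + 1) = n - 1 - x by omega] at h2
    exact T.tl (n - 1 - x) y (by omega) hy h1 h2
  lr x y hx hy h1 h2 := by
    rw [show n - (x + 1) = n - 1 - x by omega] at h2
    have := T.lr (n - 1 - x) y (by omega) hy h2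
    rw [show n - 1 - x + 1 = n - x by omega] at this
    exact this h1
  two x y hx hy := by
    have := T.two (n - (x + 2)) y (by omega) hy
    rw [show n - (x + 2) + 1 = n - 1 - x by omega, show n - (x + 2) + 2 = n - x by omega] at this
    rw [show n - 1 - (x + 1) = n - (x + 2) by omega]
    tauto

lemma stair {n : ℕ} {h v : ℕ → ℕ → Prop} (T : Tiling n h v) (hn : n % 2 = 1)
    (C1 : ∀ x < n, ¬ h x 0) (C2 : ∀ y < n, ¬ v 0 y) (hs : v 1 0) :
    ∀ s < n, (∀ j y, 2 * y + 2 * j = s → v (y + 2 * j + 1) y) ∧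
      (∀ j x, 2 * x + 1 + 2 * j = s → h x (x + 2 * j + 2)) := by
  intro s
  induction s using Nat.strong_induction_on with
  | _ s ih =>
    intro hsn
    have IH1 : ∀ j y, 2 * y + 2 * j < s → v (y + 2 * j + 1) y := fun j y hh =>
      (ih (2 * y + 2 * j) hh (by omega)).1 j y rfl
    have IH2 : ∀ j x, 2 * x + 1 + 2 * j < s → h x (x + 2 * j + 2) := fun j x hh =>
      (ih (2 * x + 1 + 2 * j) hh (by omega)).2 j x rfl
    constructor
    · intro j
      induction j with
      | zero =>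
        intro y hy
        rcases Nat.eq_zero_or_pos y with rfl | hy0
        · exact hs
        · obtain ⟨m, rfl⟩ : ∃ m, y = m + 1 := ⟨y - 1, by omega⟩
          have k1 : h m (m + 2) := IH2 0 m (by omega)
          have k2 : v (m + 1) m := IH1 0 m (by omega)
          rcases T.cover (m + 1) (m + 1) (by omega) (by omega) with c | c | c | c
          · exact (T.tl (m + 1) m (by omega) (by omega) c k2).elim
          · exfalso
            rcases T.two m (m + 1) (by omega) (by omega) with d | d | d | d | d | d | d | d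
            · exact T.bt m (m + 1) (by omega) (by omega) d k1
            · exact T.bt (m + 1) (m + 1) (by omega) (by omega) d c
            · exact T.bt m (m + 2) (by omega) (by omega) k1 d
            · exact T.bt (m + 1) (m + 2) (by omega) (by omega) c d
            · exact T.tl m (m + 1) (by omega) (by omega) k1 d
            · exact T.bl m (m + 2) (by omega) (by omega) k1 d
            · exact T.tr (m + 1) (m + 1) (by omega) (by omega) c d
            · exact T.br (m + 1) (m + 2) (by omega) (by omega) c d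
          · exact (T.tr m (m + 1) (by omega) (by omega) k1 c).elim
          · exact c
      | succ j ihj =>
        intro y hy
        have k1 : v (y + 2 * j + 2) (y + 1) := by
          have := ihj (y + 1) (by omega)
          rwa [show y + 1 + 2 * j + 1 = y + 2 * j + 2 by ring] at this
        have k2 : v (y + 2 * j + 1) y := IH1 j y (by omega)
        rcases T.cover (y + 2 * j + 2) y (by omega) (by omega) with c | c | c | c
        · exfalso
          rcases Nat.eq_zero_or_pos y with rfl | hy0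
          · exact C1 _ (by omega) c
          · obtain ⟨m, rfl⟩ : ∃ m, y = m + 1 := ⟨y - 1, by omega⟩
            have k3 : v (m + 1 + 2 * j + 2) m := by
              have := IH1 (j + 1) m (by omega)
              rwa [show m + 2 * (j + 1) + 1 = m + 1 + 2 * j + 2 by ring] at this
            exact T.tl (m + 1 + 2 * j + 2) m (by omega) (by omega) c k3
        · exact (T.bl (y + 2 * j + 2) (y + 1) (by omega) (by omega) c k1).elim
        · exact (T.lr (y + 2 * j + 1) y (by omega) (by omega) k2 c).elim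
        · rw [show y + 2 * (j + 1) + 1 = y + 2 * j + 2 + 1 by ring]
          exact c
    · intro j
      induction j with
      | zero =>
        intro x hx
        have k1 : v (x + 1) x := IH1 0 x (by omega)
        rcases T.cover x (x + 1) (by omega) (by omega) with c | c | c | c
        · exact (T.tr x x (by omega) (by omega) c k1).elim
        · exact c
        · exfalso
          rcases Nat.eq_zero_or_pos x with rfl | hx0
          · exact C2 _ (by omega) c
          · obtain ⟨m, rfl⟩ : ∃ m, x = m + 1 := ⟨x - 1, by omega⟩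
            have k2 : h m (m + 2) := IH2 0 m (by omega)
            exact T.br m (m + 2) (by omega) (by omega) k2 c
        · exfalso
          rcases T.two x x (by omega) (by omega) with d | d | d | d | d | d | d | d
          · exact T.br x x (by omega) (by omega) d k1
          · exact T.bl (x + 1) x (by omega) (by omega) d k1
          · exact T.tr x (x + 1) (by omega) (by omega) d c
          · exact T.tl (x + 1) (x + 1) (by omega) (by omega) d c
          · exact T.lr x x (by omega) (by omega) d k1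
          · exact T.lr x (x + 1) (by omega) (by omega) d c
          · exact T.lr (x + 1) x (by omega) (by omega) k1 d
          · exact T.lr (x + 1) (x + 1) (by omega) (by omega) c d
      | succ j ihj =>
        intro x hx
        have k1 : h (x + 1) (x + 2 * j + 3) := by
          have := ihj (x + 1) (by omega)
          rwa [show x + 1 + 2 * j + 2 = x + 2 * j + 3 by ring] at this
        have k2 : h x (x + 2 * j + 2) := IH2 j x (by omega)
        rcases T.cover x (x + 2 * j + 3) (by omega) (by omega) with c | c | c | c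
        · exact (T.bt x (x + 2 * j + 2) (by omega) (by omega) k2 c).elim
        · rw [show x + 2 * (j + 1) + 2 = x + 2 * j + 3 + 1 by ring]
          exact c
        · exfalso
          rcases Nat.eq_zero_or_pos x with rfl | hx0
          · exact C2 _ (by omega) c
          · obtain ⟨m, rfl⟩ : ∃ m, x = m + 1 := ⟨x - 1, by omega⟩
            have k3 : h m (m + 1 + 2 * j + 3) := by
              have := IH2 (j + 1) m (by omega)
              rwa [show m + 2 * (j + 1) + 2 = m + 1 + 2 * j + 3 by ring] at this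
            exact T.br m (m + 1 + 2 * j + 3) (by omega) (by omega) k3 c
        · exact (T.bl (x + 1) (x + 2 * j + 3) (by omega) (by omega) k1 c).elim

lemma corner_aux {n : ℕ} {h v : ℕ → ℕ → Prop} (T : Tiling n h v) (hn : n % 2 = 1)
    (C1 : ∀ x < n, ¬ h x 0) (C2 : ∀ y < n, ¬ v 0 y) (hs : v 1 0) : v n 0 := by
  have := (stair T hn C1 C2 hs (n - 1) (by omega)).1 ((n - 1) / 2) 0 (by omega)
  rwa [show 0 + 2 * ((n - 1) / 2) + 1 = n by omega] at this

lemma corner {n : ℕ} {h v : ℕ → ℕ → Prop} (T : Tiling n h v) (hn : n % 2 = 1)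
    (C1 : ∀ x < n, ¬ h x 0) (C2 : ∀ y < n, ¬ v 0 y) : v n 0 ∨ h 0 n := by
  rcases T.cover 0 0 (by omega) (by omega) with c | c | c | c
  · exact (C1 0 (by omega) c).elim
  · right
    exact corner_aux T.transpose hn C2 C1 c
  · exact (C2 0 (by omega) c).elim
  · left
    exact corner_aux T hn C1 C2 c

lemma top_two {n : ℕ} {h v : ℕ → ℕ → Prop} (T : Tiling n h v) (hn : n % 2 = 1)
    (C1 : ∀ x < n, ¬ h x 0) (C2 : ∀ y < n, ¬ v 0 y) (C3 : ∀ y < n, ¬ v n y) :
    h 0 n ∧ h (n - 1) n := by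
  constructor
  · rcases corner T hn C1 C2 with c | c
    · exact (C3 0 (by omega) c).elim
    · exact c
  · rcases corner T.reflectX hn (fun x hx => C1 _ (by omega))
      (fun y hy => C3 y hy) with c | c
    · simp only [Nat.sub_self] at c
      exact (C2 0 (by omega) c).elim
    · exact c

lemma bottom_two {n : ℕ} {h v : ℕ → ℕ → Prop} (T : Tiling n h v) (hn : n % 2 = 1)
    (C1 : ∀ x < n, ¬ h x n) (C2 : ∀ y < n, ¬ v 0 y) (C3 : ∀ y < n, ¬ v n y) :
    h 0 0 ∧ h (n - 1) 0 := by
  have := top_two T.transpose.reflectX.transpose hn (fun x hx => C1 x hx)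
    (fun y hy => C2 _ (by omega)) (fun y hy => C3 _ (by omega))
  simpa using this

/-! ### The lower bound -/

lemma one_le_deg {n : ℕ} {R : Finset (Sym2 (ℕ × ℕ))} (hD : Destroys n R) {x y : ℕ}
    (hx : x < n) (hy : y < n) :
    hseg x y ∈ R ∨ hseg x (y + 1) ∈ R ∨ vseg x y ∈ R ∨ vseg (x + 1) y ∈ R := by
  obtain ⟨e, he, hb⟩ := hD 1 x y le_rfl hx hy
  obtain ⟨t, ht, h⟩ := mem_squareBoundary.1 hb
  obtain rfl : t = 0 := by omega
  simp only [add_zero] at h
  rcases h with rfl | rfl | rfl | rfl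
  · exact Or.inl he
  · exact Or.inr (Or.inl he)
  · exact Or.inr (Or.inr (Or.inl he))
  · exact Or.inr (Or.inr (Or.inr he))

lemma two_by_two {n : ℕ} {R : Finset (Sym2 (ℕ × ℕ))} (hD : Destroys n R) {x y : ℕ}
    (hx : x + 2 ≤ n) (hy : y + 2 ≤ n) :
    hseg x y ∈ R ∨ hseg (x + 1) y ∈ R ∨ hseg x (y + 2) ∈ R ∨ hseg (x + 1) (y + 2) ∈ R ∨
      vseg x y ∈ R ∨ vseg x (y + 1) ∈ R ∨ vseg (x + 2) y ∈ R ∨ vseg (x + 2) (y + 1) ∈ R := by
  obtain ⟨e, he, hb⟩ := hD 2 x y (by omega) hx hy
  obtain ⟨t, ht, h⟩ := mem_squareBoundary.1 hb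
  have ht2 : t = 0 ∨ t = 1 := by omega
  rcases ht2 with rfl | rfl
  · simp only [add_zero] at h
    rcases h with rfl | rfl | rfl | rfl <;> tauto
  · rcases h with rfl | rfl | rfl | rfl <;> tauto

/-- The number of sides of the cell `(x, y)` that lie in `R`. -/
def deg (R : Finset (Sym2 (ℕ × ℕ))) (x y : ℕ) : ℕ :=
  (if hseg x y ∈ R then 1 else 0) + (if hseg x (y + 1) ∈ R then 1 else 0) +
    (if vseg x y ∈ R then 1 else 0) + (if vseg (x + 1) y ∈ R then 1 else 0)

/-- The number of segments of `R` on the boundary of the board. -/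
def bd (n : ℕ) (R : Finset (Sym2 (ℕ × ℕ))) : ℕ :=
  ∑ x ∈ range n, ((if hseg x 0 ∈ R then 1 else 0) + (if hseg x n ∈ R then 1 else 0)) +
    ∑ y ∈ range n, ((if vseg 0 y ∈ R then 1 else 0) + (if vseg n y ∈ R then 1 else 0))

lemma card_deg_bd {n : ℕ} {R : Finset (Sym2 (ℕ × ℕ))} (hR : R ⊆ segs n) :
    2 * R.card = ∑ x ∈ range n, ∑ y ∈ range n, deg R x y + bd n R := by
  rw [card_eq hR]
  exact double_count n (fun x y => if hseg x y ∈ R then 1 else 0)
    (fun x y => if vseg x y ∈ R then 1 else 0)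

lemma deg_pos {n : ℕ} {R : Finset (Sym2 (ℕ × ℕ))} (hD : Destroys n R) {x y : ℕ}
    (hx : x < n) (hy : y < n) : 1 ≤ deg R x y := by
  unfold deg
  rcases one_le_deg hD hx hy with h | h | h | h <;> rw [if_pos h] <;> omega

lemma bd_pos {n : ℕ} {R : Finset (Sym2 (ℕ × ℕ))} (hn : 1 ≤ n) (hD : Destroys n R) :
    1 ≤ bd n R := by
  obtain ⟨e, he, hb⟩ := hD n 0 0 hn (by omega) (by omega)
  obtain ⟨t, ht, h⟩ := mem_squareBoundary.1 hb
  simp only [zero_add] at h
  unfold bd
  rw [← mem_range] at ht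
  rcases h with rfl | rfl | rfl | rfl
  · have := single_le_sum (f := fun x => (if hseg x 0 ∈ R then 1 else 0) +
      (if hseg x n ∈ R then 1 else 0)) (fun _ _ => Nat.zero_le _) ht
    simp only [if_pos he] at this
    omega
  · have := single_le_sum (f := fun x => (if hseg x 0 ∈ R then 1 else 0) +
      (if hseg x n ∈ R then 1 else 0)) (fun _ _ => Nat.zero_le _) ht
    simp only [if_pos he] at this
    omega
  · have := single_le_sum (f := fun y => (if vseg 0 y ∈ R then 1 else 0) +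
      (if vseg n y ∈ R then 1 else 0)) (fun _ _ => Nat.zero_le _) ht
    simp only [if_pos he] at this
    omega
  · have := single_le_sum (f := fun y => (if vseg 0 y ∈ R then 1 else 0) +
      (if vseg n y ∈ R then 1 else 0)) (fun _ _ => Nat.zero_le _) ht
    simp only [if_pos he] at this
    omega

lemma sum_one (n : ℕ) : ∑ _x ∈ range n, ∑ _y ∈ range n, 1 = n ^ 2 := by
  simp [sq]

lemma basic_lower {n : ℕ} {R : Finset (Sym2 (ℕ × ℕ))} (hn : 1 ≤ n) (hR : R ⊆ segs n)
    (hD : Destroys n R) : n ^ 2 + 1 ≤ 2 * R.card := by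
  rw [card_deg_bd hR, ← sum_one n]
  refine add_le_add ?_ (bd_pos hn hD)
  exact sum_le_sum fun x hx => sum_le_sum fun y hy =>
    deg_pos hD (mem_range.1 hx) (mem_range.1 hy)

lemma not_two_of_sum_le {n : ℕ} (hn : 3 ≤ n) (P : ℕ → Prop) [DecidablePred P]
    (h : ∑ x ∈ range n, (if P x then 1 else 0) ≤ 1) (h0 : P 0) (h1 : P (n - 1)) : False := by
  rw [← card_filter, card_le_one] at h
  have := h 0 (mem_filter.2 ⟨mem_range.2 (by omega), h0⟩) (n - 1)
    (mem_filter.2 ⟨mem_range.2 (by omega), h1⟩)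
  omega

lemma forall_not_of_sum_eq_zero {n : ℕ} (P : ℕ → Prop) [DecidablePred P]
    (h : ∑ x ∈ range n, (if P x then 1 else 0) = 0) : ∀ x < n, ¬ P x := by
  intro x hx hP
  rw [sum_eq_zero_iff] at h
  have := h x (mem_range.2 hx)
  rw [if_pos hP] at this
  omega

lemma odd_lower {n : ℕ} {R : Finset (Sym2 (ℕ × ℕ))} (hn : 3 ≤ n) (hodd : n % 2 = 1)
    (hR : R ⊆ segs n) (hD : Destroys n R) : n ^ 2 + 3 ≤ 2 * R.card := by
  have hb := basic_lower (by omega) hR hD
  by_contra hlt
  have hpar : n ^ 2 % 2 = 1 := by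
    rw [Nat.pow_mod, hodd]
  have hcard : 2 * R.card = n ^ 2 + 1 := by omega
  rw [card_deg_bd hR] at hcard
  have hbd := bd_pos (by omega) hD
  have hsum : ∑ x ∈ range n, ∑ y ∈ range n, 1 ≤ ∑ x ∈ range n, ∑ y ∈ range n, deg R x y :=
    sum_le_sum fun x hx => sum_le_sum fun y hy => deg_pos hD (mem_range.1 hx) (mem_range.1 hy)
  rw [sum_one] at hsum
  have hbd1 : bd n R = 1 := by omega
  have hdeg : ∀ x y, x < n → y < n → deg R x y = 1 := by
    intro x y hx hy
    have hs : ∑ x ∈ range n, ∑ y ∈ range n, 1 = ∑ x ∈ range n, ∑ y ∈ range n, deg R x y := by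
      rw [sum_one]; omega
    have h1 := (sum_eq_sum_iff_of_le (fun i hi => sum_le_sum fun j hj =>
      deg_pos hD (mem_range.1 hi) (mem_range.1 hj))).1 hs x (mem_range.2 hx)
    exact ((sum_eq_sum_iff_of_le (fun j hj =>
      deg_pos hD hx (mem_range.1 hj))).1 h1 y (mem_range.2 hy)).symm
  have T : Tiling n (fun x y => hseg x y ∈ R) (fun x y => vseg x y ∈ R) := by
    refine ⟨fun x y hx hy => one_le_deg hD hx hy, ?_, ?_, ?_, ?_, ?_, ?_,
      fun x y hx hy => two_by_two hD hx hy⟩ <;>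
    · intro x y hx hy h1 h2
      have := hdeg x y hx hy
      unfold deg at this
      simp only [if_pos h1, if_pos h2] at this
      omega
  unfold bd at hbd1
  rw [sum_add_distrib, sum_add_distrib] at hbd1
  set B := ∑ x ∈ range n, (if hseg x 0 ∈ R then 1 else 0) with hB
  set U := ∑ x ∈ range n, (if hseg x n ∈ R then 1 else 0) with hU
  set L := ∑ y ∈ range n, (if vseg 0 y ∈ R then 1 else 0) with hL
  set V := ∑ y ∈ range n, (if vseg n y ∈ R then 1 else 0) with hV
  have fB : B = 0 → ∀ x < n, ¬ hseg x 0 ∈ R := fun h =>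
    forall_not_of_sum_eq_zero (fun x => hseg x 0 ∈ R) h
  have fU : U = 0 → ∀ x < n, ¬ hseg x n ∈ R := fun h =>
    forall_not_of_sum_eq_zero (fun x => hseg x n ∈ R) h
  have fL : L = 0 → ∀ y < n, ¬ vseg 0 y ∈ R := fun h =>
    forall_not_of_sum_eq_zero (fun y => vseg 0 y ∈ R) h
  have fV : V = 0 → ∀ y < n, ¬ vseg n y ∈ R := fun h =>
    forall_not_of_sum_eq_zero (fun y => vseg n y ∈ R) h
  have cases : (B = 1 ∧ U = 0 ∧ L = 0 ∧ V = 0) ∨ (B = 0 ∧ U = 1 ∧ L = 0 ∧ V = 0) ∨
      (B = 0 ∧ U = 0 ∧ L = 1 ∧ V = 0) ∨ (B = 0 ∧ U = 0 ∧ L = 0 ∧ V = 1) := by omega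
  rcases cases with ⟨c1, c2, c3, c4⟩ | ⟨c1, c2, c3, c4⟩ | ⟨c1, c2, c3, c4⟩ | ⟨c1, c2, c3, c4⟩
  · have := bottom_two T hodd (fU c2) (fL c3) (fV c4)
    exact not_two_of_sum_le hn (fun x => hseg x 0 ∈ R) (by omega) this.1 this.2
  · have := top_two T hodd (fB c1) (fL c3) (fV c4)
    exact not_two_of_sum_le hn (fun x => hseg x n ∈ R) (by omega) this.1 this.2
  · have := bottom_two T.transpose hodd (fV c4) (fB c1) (fU c2)
    exact not_two_of_sum_le hn (fun y => vseg 0 y ∈ R) (by omega) this.1 this.2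
  · have := top_two T.transpose hodd (fL c3) (fB c1) (fU c2)
    exact not_two_of_sum_le hn (fun y => vseg n y ∈ R) (by omega) this.1 this.2

lemma value_le_card {n : ℕ} (hn : 1 ≤ n) {R : Finset (Sym2 (ℕ × ℕ))} (hR : R ⊆ segs n)
    (hD : Destroys n R) : value n ≤ R.card := by
  have hb := basic_lower hn hR hD
  unfold value
  split_ifs with h1 h2
  · subst h1; omega
  · omega
  · have := odd_lower (by omega) (by omega) hR hD
    omega

/-- For every `n ≥ 1`, the minimum number `f(n)` of unit segments of the `n × n` board whose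
removal destroys all squares is `value n`, that is `1` for `n = 1`, `n^2/2 + 1` for even `n` and
`(n^2+3)/2` for odd `n ≥ 3`; and the explicitly given set `optimalSet n` attains it. -/
theorem result : ∀ n : ℕ, 1 ≤ n →
    IsLeast {m : ℕ | ∃ R : Finset (Sym2 (ℕ × ℕ)), R ⊆ segs n ∧ Destroys n R ∧ R.card = m}
      (value n) ∧
    optimalSet n ⊆ segs n ∧ Destroys n (optimalSet n) ∧ (optimalSet n).card = value n := by
  intro n hn
  have hc : (optimalSet n).card = value n :=
    le_antisymm (optimalSet_card_le hn)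
      (value_le_card hn (optimalSet_subset n) (optimalSet_destroys n))
  refine ⟨⟨⟨optimalSet n, optimalSet_subset n, optimalSet_destroys n, hc⟩, ?_⟩,
    optimalSet_subset n, optimalSet_destroys n, hc⟩
  rintro m ⟨R, hR, hD, rfl⟩
  exact value_le_card hn hR hD

end Pool.Agent.Results.MP_5493ad_co.ExactFormula
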